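import Mathlib

/-!
# One-way multicounter machines with a bound on the number of reversals
-/

set_option autoImplicit false

namespace Pool.Agent.W2helper55.PB

open Relation

/-- A one-way (nondeterministic) machine with `k` counters. A move is a triple: the new state,
whether the head moves right, and the changes (`-1`, `0` or `1`) of the counters. The moves depend
on the state, on the scanned symbol (`none` if the whole input has been read) and on the set of
the counters which are zero. -/
structure CM (S : Type) where
  Q : Type
  finQ : Finite Q
  k : ℕ
  start : Q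
  final : Set Q
  mv : Q → Option S → Set (Fin k) → Set (Q × Bool × (Fin k → SignType))

variable {S : Type}

/-- A configuration: state, unread part of the input (its first symbol is the scanned one),
counters, direction of the last change of each counter (`0` if there was none), number of
reversals so far. -/
structure Cfg (M : CM S) where
  q : M.Q
  w : List S
  c : Fin M.k → ℕ
  d : Fin M.k → SignType
  r : ℕ

variable {M : CM S}

/-- the move `m` is possible -/
def Cfg.can (C : Cfg M) (m : M.Q × Bool × (Fin M.k → SignType)) : Prop :=
  m ∈ M.mv C.q C.w.head? {i | C.c i = 0} ∧ (m.2.1 = true → C.w ≠ []) ∧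
    ∀ i, 0 ≤ (C.c i : ℤ) + (m.2.2 i : ℤ)

/-- the configuration after the move `m` -/
def Cfg.next (C : Cfg M) (m : M.Q × Bool × (Fin M.k → SignType)) : Cfg M where
  q := m.1
  w := if m.2.1 = true then C.w.tail else C.w
  c := fun i => ((C.c i : ℤ) + (m.2.2 i : ℤ)).toNat
  d := fun i => if m.2.2 i = 0 then C.d i else m.2.2 i
  r := C.r + (Finset.univ.filter fun i => m.2.2 i * C.d i = -1).card

/-- one step -/
def Step (C C' : Cfg M) : Prop := ∃ m, C.can m ∧ C' = C.next m

/-- the initial configuration -/
def CM.init (M : CM S) (w : List S) : Cfg M := ⟨M.start, w, fun _ => 0, fun _ => 0, 0⟩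

/-- the accepted words which have an accepting computation with at most `c` reversals -/
def CM.lang (M : CM S) (c : ℕ) : Set (List S) :=
  {w | ∃ C : Cfg M, ReflTransGen Step (M.init w) C ∧ C.w = [] ∧ C.q ∈ M.final ∧
    (∀ i, C.c i = 0) ∧ C.r ≤ c}

/-- in every configuration at most one move is possible -/
def CM.Det (M : CM S) : Prop := ∀ (C : Cfg M) m m', C.can m → C.can m' → m = m'

/-- the moves never depend on whether counters are zero -/
def CM.Blind (M : CM S) : Prop := ∀ q s Z Z', M.mv q s Z = M.mv q s Z'

/-- quasi-realtime: the stretches of the computations in which the head does not move have bounded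
length -/
def CM.QR (M : CM S) : Prop :=
  ∃ D : ℕ, ∀ (w : List S) (f : ℕ → Cfg M) (n : ℕ), ReflTransGen Step (M.init w) (f 0) →
    (∀ j < n, Step (f j) (f (j + 1))) → (f n).w = (f 0).w → n ≤ D

end Pool.Agent.W2helper55.PB
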