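import Pool.Agent.W2helper55.PB.Defs

/-!
# Deterministic partially blind machines do not accept `a^n b^m`, `n ≤ m`
-/

set_option autoImplicit false
set_option linter.all false

namespace Pool.Agent.W2helper55.PB

open Relation

variable {S : Type} {M : CM S}

/-- the language `a^n b^m`, `n ≤ m` -/
def LAB : Set (List Bool) :=
  {w | ∃ n m : ℕ, n ≤ m ∧ w = List.replicate n false ++ List.replicate m true}

/-- append a suffix to the unread input -/
def Cfg.ext (C : Cfg M) (x : List S) : Cfg M := { C with w := C.w ++ x }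

lemma can_ext {C : Cfg M} {m} (x : List S) (hw : C.w ≠ []) : (C.ext x).can m ↔ C.can m := by
  obtain ⟨a, u, hu⟩ := List.exists_cons_of_ne_nil hw
  unfold Cfg.can Cfg.ext
  simp [hu]

lemma next_ext {C : Cfg M} {m} (x : List S) (hw : C.w ≠ []) :
    (C.ext x).next m = (C.next m).ext x := by
  obtain ⟨a, u, hu⟩ := List.exists_cons_of_ne_nil hw
  unfold Cfg.next Cfg.ext
  simp only [hu]
  split_ifs <;> simp

/-- a run which stops as soon as the input is read -/
def Run1 : Cfg M → Cfg M → Prop := ReflTransGen fun C C' => C.w ≠ [] ∧ Step C C'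

lemma Run1.ext {C C' : Cfg M} (h : Run1 C C') (x : List S) :
    ReflTransGen Step (C.ext x) (C'.ext x) := by
  induction h with
  | refl => exact ReflTransGen.refl
  | tail _ hs ih =>
    obtain ⟨hw, m, hm, rfl⟩ := hs
    exact ih.tail ⟨m, (can_ext x hw).2 hm, (next_ext x hw).symm⟩

lemma split_run {x : List S} {E : Cfg M} (hE : E.w = []) :
    ∀ {D : Cfg M}, ReflTransGen Step D E → ∀ C : Cfg M, D = C.ext x →
      ∃ C', Run1 C C' ∧ C'.w = [] ∧ ReflTransGen Step (C'.ext x) E := by
  intro D h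
  induction h using ReflTransGen.head_induction_on with
  | refl =>
    intro C hC
    refine ⟨C, ReflTransGen.refl, ?_, ?_⟩
    · have : C.w ++ x = [] := by rw [← hE, hC]; rfl
      exact (List.append_eq_nil_iff.1 this).1
    · rw [← hC]
  | head hs h' ih =>
    intro C hC
    by_cases hw : C.w = []
    · refine ⟨C, ReflTransGen.refl, hw, ?_⟩
      rw [← hC]
      exact ReflTransGen.head hs h'
    · obtain ⟨m, hm, rfl⟩ := hs
      subst hC
      obtain ⟨C', h1, h2, h3⟩ := ih (C.next m) (next_ext x hw)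
      exact ⟨C', ReflTransGen.head ⟨hw, m, (can_ext x hw).1 hm, rfl⟩ h1, h2, h3⟩

lemma Run1.unique (hd : M.Det) {C C₁ : Cfg M} (h1 : Run1 C C₁) (hw1 : C₁.w = []) :
    ∀ {C₂}, Run1 C C₂ → C₂.w = [] → C₁ = C₂ := by
  induction h1 using ReflTransGen.head_induction_on with
  | refl =>
    intro C₂ h2 _
    rcases ReflTransGen.cases_head h2 with h | ⟨D, hD, _⟩
    · exact h
    · exact absurd hw1 hD.1
  | head hs _ ih =>
    intro C₂ h2 hw2
    obtain ⟨hw, m, hm, rfl⟩ := hs
    rcases ReflTransGen.cases_head h2 with h | ⟨D, ⟨_, m', hm', rfl⟩, h3⟩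
    · rw [h] at hw
      exact absurd hw2 hw
    · rw [hd _ _ _ hm hm'] at ih
      exact ih h3 hw2

/-- runs with a given number of steps -/
def RN (n : ℕ) (C E : Cfg M) : Prop :=
  ∃ f : ℕ → Cfg M, f 0 = C ∧ f n = E ∧ ∀ j < n, Step (f j) (f (j + 1))

lemma exists_RN {C E : Cfg M} (h : ReflTransGen Step C E) : ∃ n, RN n C E := by
  induction h with
  | refl => exact ⟨0, fun _ => C, rfl, rfl, fun j hj => absurd hj (Nat.not_lt_zero j)⟩
  | tail _ hs ih =>
    rename_i D E _
    obtain ⟨n, f, h0, hn, hf⟩ := ih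
    refine ⟨n + 1, fun j => if j ≤ n then f j else E, by simp [h0], by simp, fun j hj => ?_⟩
    rcases Nat.lt_or_ge j n with h | h
    · have h1 : j ≤ n := h.le
      have h2 : j + 1 ≤ n := h
      simp only [h1, h2, if_true]
      exact hf j h
    · have h1 : j = n := by omega
      subst h1
      simp only [le_refl, if_true, show ¬ (j + 1 ≤ j) by omega, if_false, hn]
      exact hs

lemma next_c {C : Cfg M} {m} (hm : C.can m) (i : Fin M.k) :
    ((C.next m).c i : ℤ) = (C.c i : ℤ) + (m.2.2 i : ℤ) := Int.toNat_of_nonneg (hm.2.2 i)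

/-- blind runs from similar configurations make the same moves -/
lemma sim (hd : M.Det) (hb : M.Blind) {f g : ℕ → Cfg M} {n : ℕ} (hq : (f 0).q = (g 0).q)
    (hw : (f 0).w = (g 0).w) (hf : ∀ j < n, Step (f j) (f (j + 1)))
    (hg : ∀ j < n, Step (g j) (g (j + 1))) : ∀ j ≤ n, (f j).q = (g j).q ∧ (f j).w = (g j).w ∧
      ∀ i, ((f j).c i : ℤ) - (f 0).c i = ((g j).c i : ℤ) - (g 0).c i := by
  intro j
  induction j with
  | zero => intro _; exact ⟨hq, hw, fun i => by ring⟩
  | succ j ih =>
    intro hj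
    obtain ⟨h1, h2, h3⟩ := ih (by omega)
    obtain ⟨m, hm, hm1⟩ := hf j (by omega)
    obtain ⟨m', hm', hm1'⟩ := hg j (by omega)
    have key : m = m' := by
      -- both moves are possible with large counters
      let K : Cfg M := ⟨(f j).q, (f j).w, fun _ => 1, fun _ => 0, 0⟩
      have hK : ∀ (s : SignType), (0 : ℤ) ≤ ((1 : ℕ) : ℤ) + (s : ℤ) := by
        intro s; cases s <;> decide
      refine hd K m m' ⟨?_, hm.2.1, fun i => hK _⟩ ⟨?_, ?_, fun i => hK _⟩
      · have := hm.1
        rwa [hb _ _ _ {i | K.c i = 0}] at this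
      · have := hm'.1
        rw [← h1, ← h2] at this
        rwa [hb _ _ _ {i | K.c i = 0}] at this
      · intro h
        have := hm'.2.1 h
        rwa [← h2] at this
    subst key
    refine ⟨?_, ?_, fun i => ?_⟩
    · rw [hm1, hm1']; rfl
    · rw [hm1, hm1']
      show (if m.2.1 = true then (f j).w.tail else (f j).w) = _
      rw [h2]; rfl
    · rw [hm1, hm1', next_c hm, next_c hm']
      have := h3 i
      linarith

lemma Cfg.eq_of {C C' : Cfg M} (h1 : C.q = C'.q) (h2 : C.w = C'.w) (h3 : C.c = C'.c)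
    (h4 : C.d = C'.d) (h5 : C.r = C'.r) : C = C' := by
  obtain ⟨q, w, c, d, r⟩ := C
  obtain ⟨q', w', c', d', r'⟩ := C'
  simp only at h1 h2 h3 h4 h5
  subst h1 h2 h3 h4 h5
  rfl

lemma r_mono {C C' : Cfg M} (h : ReflTransGen Step C C') : C.r ≤ C'.r := by
  induction h with
  | refl => exact le_rfl
  | tail _ hs ih =>
    obtain ⟨m, _, rfl⟩ := hs
    exact ih.trans (Nat.le_add_right _ _)

theorem not_LAB (M : CM Bool) (hd : M.Det) (hb : M.Blind) (hq : M.QR) (c : ℕ) :
    M.lang c ≠ LAB := by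
  classical
  intro hL
  haveI := M.finQ
  obtain ⟨D, hD⟩ := hq
  -- the family of the words
  have hacc : ∀ n m : ℕ, n ≤ m → ∃ C' : Cfg M, Run1 (M.init (List.replicate n false)) C' ∧
      C'.w = [] ∧ C'.r ≤ c ∧ ∃ (t : ℕ) (f : ℕ → Cfg M), f 0 = C'.ext (List.replicate m true) ∧
        (∀ j < t, Step (f j) (f (j + 1))) ∧ (f t).w = [] ∧ (f t).q ∈ M.final ∧
        (∀ i, (f t).c i = 0) ∧ (f t).r ≤ c := by
    intro n m hnm
    have h1 : List.replicate n false ++ List.replicate m true ∈ M.lang c := by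
      rw [hL]; exact ⟨n, m, hnm, rfl⟩
    obtain ⟨E, hE, hEw, hEf, hEc, hEr⟩ := h1
    obtain ⟨C', h1, h2, h3⟩ := split_run hEw hE (M.init (List.replicate n false)) rfl
    obtain ⟨t, f, h0, ht, hf⟩ := exists_RN h3
    refine ⟨C', h1, h2, (r_mono h3).trans hEr, t, f, h0, hf, ?_⟩
    rw [ht]
    exact ⟨hEw, hEf, hEc, hEr⟩
  -- pigeonhole
  let κ := M.Q × (Fin M.k → SignType) × Fin (c + 1) × Fin (D + 1)
  haveI : Fintype M.Q := Fintype.ofFinite _
  obtain ⟨m, hm⟩ : ∃ m, m = Fintype.card κ := ⟨_, rfl⟩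
  have hacc' : ∀ n : Fin (m + 1), _ := fun n => hacc n m (Nat.lt_succ_iff.1 n.2)
  choose C' h1 h2 h3 t f h4 h5 h6 h7 h8 h9 using hacc'
  let key : Fin (m + 1) → κ := fun n => ((C' n).q, (C' n).d, Fin.ofNat (c + 1) (C' n).r,
    Fin.ofNat (D + 1) (t n))
  obtain ⟨n₁, n₂, hne, hk⟩ := Fintype.exists_ne_map_eq_of_card_lt key (by
    rw [Fintype.card_fin, ← hm]; omega)
  wlog hlt : (n₁ : ℕ) < n₂ generalizing n₁ n₂
  · exact this n₂ n₁ hne.symm hk.symm (by
      rcases Nat.lt_trichotomy (n₁ : ℕ) n₂ with h | h | h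
      · exact absurd h hlt
      · exact absurd (Fin.ext h) hne
      · exact h)
  have k1 : (C' n₁).q = (C' n₂).q := congrArg Prod.fst hk
  have k2 : (C' n₁).d = (C' n₂).d := congrArg (fun x => x.2.1) hk
  have k3 : Fin.ofNat (c + 1) (C' n₁).r = Fin.ofNat (c + 1) (C' n₂).r :=
    congrArg (fun x => x.2.2.1) hk
  have k4 : Fin.ofNat (D + 1) (t n₁) = Fin.ofNat (D + 1) (t n₂) :=
    congrArg (fun x => x.2.2.2) hk
  have k3' : (C' n₁).r = (C' n₂).r := by
    have := congrArg Fin.val k3
    simp only [Fin.ofNat] at this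
    rwa [Nat.mod_eq_of_lt (Nat.lt_succ_of_le (h3 _)), Nat.mod_eq_of_lt (Nat.lt_succ_of_le (h3 _))]
      at this
  have k4' : t n₁ % (D + 1) = t n₂ % (D + 1) := by
    have := congrArg Fin.val k4
    simpa only [Fin.ofNat] using this
  -- reachability
  have hreach : ∀ n : Fin (m + 1), ReflTransGen Step
      (M.init (List.replicate (n : ℕ) false ++ List.replicate m true)) (f n 0) := by
    intro n
    rw [h4 n]
    exact (h1 n).ext _
  -- the lengths agree
  have hlen : ∀ a b : Fin (m + 1), (C' a).q = (C' b).q → t a ≤ t b → t b - t a ≤ D := by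
    intro a b hab hle
    have hs := sim hd hb (f := f a) (g := f b) (n := t a) (by rw [h4, h4]; exact hab) (by
      rw [h4, h4]; show (C' a).w ++ _ = (C' b).w ++ _; rw [h2, h2]) (h5 a)
      (fun j hj => h5 b j (by omega)) (t a) le_rfl
    have hw : (f b (t a)).w = [] := by rw [← hs.2.1, h6]
    refine hD (List.replicate (b : ℕ) false ++ List.replicate m true) (fun j => f b (t a + j)) _ ?_ ?_ ?_
    · have : ∀ s ≤ t b, ReflTransGen Step (M.init (List.replicate (b : ℕ) false ++
          List.replicate m true)) (f b s) := by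
        intro s
        induction s with
        | zero => intro _; exact hreach b
        | succ s ih => intro hs; exact (ih (by omega)).tail (h5 b s (by omega))
      exact this (t a) hle
    · intro j hj
      exact h5 b (t a + j) (by omega)
    · show (f b (t a + (t b - t a))).w = (f b (t a + 0)).w
      rw [Nat.add_sub_cancel' hle, h6, Nat.add_zero, hw]
  have ht : t n₁ = t n₂ := by
    rcases Nat.le_total (t n₁) (t n₂) with h | h
    · have h10 := hlen n₁ n₂ k1 h
      have h11 : (t n₂ - t n₁) % (D + 1) = 0 := Nat.sub_mod_eq_zero_of_mod_eq k4'.symm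
      rw [Nat.mod_eq_of_lt (by omega)] at h11
      omega
    · have h10 := hlen n₂ n₁ k1.symm h
      have h11 : (t n₁ - t n₂) % (D + 1) = 0 := Nat.sub_mod_eq_zero_of_mod_eq k4'
      rw [Nat.mod_eq_of_lt (by omega)] at h11
      omega
  -- the counters agree
  have hc : (C' n₁).c = (C' n₂).c := by
    funext i
    have hs := sim hd hb (f := f n₁) (g := f n₂) (n := t n₁) (by rw [h4, h4]; exact k1) (by
      rw [h4, h4]; show (C' _).w ++ _ = (C' _).w ++ _; rw [h2, h2]) (h5 n₁)
      (fun j hj => h5 n₂ j (by omega)) (t n₁) le_rfl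
    have h10 := hs.2.2 i
    rw [h8, ht, h8, h4, h4] at h10
    simp only [Cfg.ext] at h10
    omega
  have hCC : C' n₁ = C' n₂ := by
    have e1 : (C' n₁).w = (C' n₂).w := by rw [h2, h2]
    exact Cfg.eq_of k1 e1 hc k2 k3'
  -- a word which should not be accepted
  obtain ⟨C'', g1, g2, _, s, g, g3, g4, g5, g6, g7, g8⟩ := hacc n₁ n₁ le_rfl
  have e2 : C'' = C' n₁ := Run1.unique hd g1 g2 (h1 n₁) (h2 n₁)
  have hbad : List.replicate (n₂ : ℕ) false ++ List.replicate (n₁ : ℕ) true ∈ M.lang c := by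
    refine ⟨g s, ?_, g5, g6, g7, g8⟩
    have e3 : ReflTransGen Step (M.init (List.replicate (n₂ : ℕ) false ++
        List.replicate (n₁ : ℕ) true)) (g 0) := by
      rw [g3, e2, hCC]
      exact (h1 n₂).ext _
    have : ∀ s' ≤ s, ReflTransGen Step (M.init (List.replicate (n₂ : ℕ) false ++
        List.replicate (n₁ : ℕ) true)) (g s') := by
      intro s'
      induction s' with
      | zero => intro _; exact e3
      | succ s' ih => intro hs; exact (ih (by omega)).tail (g4 s' (by omega))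
    exact this s le_rfl
  rw [hL] at hbad
  obtain ⟨n, m', hnm, hw⟩ := hbad
  have c1 := congrArg (List.count false) hw
  have c2 := congrArg (List.count true) hw
  simp [List.count_replicate] at c1 c2
  omega

end Pool.Agent.W2helper55.PB
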