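import Pool.Agent.W2helper55.PB.Neg

/-!
# A deterministic counter machine for `a^n b^m`, `n ≤ m`; no reversals
-/

set_option autoImplicit false
set_option linter.all false

namespace Pool.Agent.W2helper55.PB

open Relation

/-- the machine: state `false` reads `a`s, state `true` reads `b`s -/
def MM : CM Bool where
  Q := Bool
  finQ := inferInstance
  k := 1
  start := false
  final := Set.univ
  mv q s Z := {m | (q = false ∧ s = some false ∧ m = (false, true, fun _ => 1)) ∨
    (s = some true ∧ (0 : Fin 1) ∈ Z ∧ m = (true, true, fun _ => 0)) ∨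
    (s = some true ∧ (0 : Fin 1) ∉ Z ∧ m = (true, true, fun _ => -1))}

/-- the only counter -/
def z0 : Fin MM.k := (0 : Fin 1)

lemma MM_mv {C : Cfg MM} {m} (h : C.can m) :
    (C.q = false ∧ C.w.head? = some false ∧ m = (false, true, fun _ => 1)) ∨
    (C.w.head? = some true ∧ C.c z0 = 0 ∧ m = (true, true, fun _ => 0)) ∨
    (C.w.head? = some true ∧ C.c z0 ≠ 0 ∧ m = (true, true, fun _ => -1)) := h.1

theorem MM_det : MM.Det := by
  intro C m m' h h'
  rcases MM_mv h with ⟨_, a, b⟩ | ⟨a, a', b⟩ | ⟨a, a', b⟩ <;>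
    rcases MM_mv h' with ⟨_, c, d⟩ | ⟨c, c', d⟩ | ⟨c, c', d⟩ <;> rw [b, d] <;>
    first | rfl | (rw [a] at c; simp at c; done) | exact absurd a' c' | exact absurd c' a'

theorem MM_qr : MM.QR := by
  refine ⟨0, fun w f n _ hf hw => ?_⟩
  by_contra h0
  have h1 : ∀ j ≤ n, (f j).w.length + j ≤ (f 0).w.length := by
    intro j
    induction j with
    | zero => intro _; exact le_rfl
    | succ j ih =>
      intro hj
      have h2 := ih (by omega)
      obtain ⟨m, hm, h3⟩ := hf j (by omega)
      have h4 : m.2.1 = true := by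
        rcases MM_mv hm with ⟨_, _, b⟩ | ⟨_, _, b⟩ | ⟨_, _, b⟩ <;> rw [b]
      have h5 := List.length_pos_of_ne_nil (hm.2.1 h4)
      have h6 : (f (j + 1)).w = (f j).w.tail := by
        rw [h3]; show (if m.2.1 = true then _ else _) = _; rw [if_pos h4]
      rw [h6, List.length_tail]
      omega
  have h2 := h1 n le_rfl
  rw [hw] at h2
  omega

/-- the invariant of the runs -/
lemma MM_inv {w : List Bool} {C : Cfg MM} (h : ReflTransGen Step (MM.init w) C) :
    ∃ i j : ℕ, w = List.replicate i false ++ List.replicate j true ++ C.w ∧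
      C.c z0 = i - j ∧ (C.q = false → j = 0) := by
  induction h with
  | refl => exact ⟨0, 0, rfl, rfl, fun _ => rfl⟩
  | tail _ hs ih =>
    rename_i C C' _
    obtain ⟨i, j, h1, h2, h3⟩ := ih
    obtain ⟨m, hm, rfl⟩ := hs
    have hw := hm.2.1
    rcases MM_mv hm with ⟨a, b, c⟩ | ⟨a, b, c⟩ | ⟨a, b, c⟩
    · obtain ⟨u, hu⟩ : ∃ u, C.w = false :: u := by
        cases hC : C.w with
        | nil => rw [hC] at b; simp at b
        | cons x u => rw [hC] at b; simp at b; exact ⟨u, by rw [b]⟩
      have h4 := h3 a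
      subst h4
      refine ⟨i + 1, 0, ?_, ?_, fun _ => rfl⟩
      · rw [h1, hu, c]
        simp [Cfg.next, hu, List.replicate_succ']
      · have := next_c hm z0
        rw [h2] at this
        rw [c] at this ⊢
        simp only [SignType.coe_one] at this
        omega
    · obtain ⟨u, hu⟩ : ∃ u, C.w = true :: u := by
        cases hC : C.w with
        | nil => rw [hC] at a; simp at a
        | cons x u => rw [hC] at a; simp at a; exact ⟨u, by rw [a]⟩
      refine ⟨i, j + 1, ?_, ?_, fun hq => ?_⟩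
      · rw [h1, hu, c]
        simp [Cfg.next, hu, List.replicate_succ']
      · have := next_c hm z0
        rw [b] at this
        rw [c] at this ⊢
        simp only [SignType.coe_zero] at this
        omega
      · rw [c] at hq; exact absurd hq (by simp [Cfg.next])
    · obtain ⟨u, hu⟩ : ∃ u, C.w = true :: u := by
        cases hC : C.w with
        | nil => rw [hC] at a; simp at a
        | cons x u => rw [hC] at a; simp at a; exact ⟨u, by rw [a]⟩
      refine ⟨i, j + 1, ?_, ?_, fun hq => ?_⟩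
      · rw [h1, hu, c]
        simp [Cfg.next, hu, List.replicate_succ']
      · have := next_c hm z0
        rw [h2] at this b
        rw [c] at this ⊢
        simp only [SignType.coe_neg_one] at this
        omega
      · rw [c] at hq; exact absurd hq (by simp [Cfg.next])

lemma MM_r (C : Cfg MM) (m : MM.Q × Bool × (Fin MM.k → SignType)) :
    (C.next m).r = C.r + if m.2.2 z0 * C.d z0 = -1 then 1 else 0 := by
  show C.r + _ = _
  congr 1
  rw [Finset.card_filter]
  exact Fin.sum_univ_one (f := fun i : Fin 1 => if m.2.2 i * C.d i = -1 then 1 else 0)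

lemma MM_bs : ∀ (m : ℕ) (C : Cfg MM), C.w = List.replicate m true → C.r ≤ 1 →
    (C.d z0 ≠ -1 → C.r = 0) → C.c z0 ≤ m →
    ∃ E : Cfg MM, ReflTransGen Step C E ∧ E.w = [] ∧ E.c z0 = 0 ∧ E.r ≤ 1
  | 0, C, hw, hr, _, hc => ⟨C, ReflTransGen.refl, hw, by omega, hr⟩
  | m + 1, C, hw, hr, hd, hc => by
    have hh : C.w.head? = some true := by rw [hw]; rfl
    have hne : C.w ≠ [] := by rw [hw]; simp [List.replicate_succ]
    by_cases h0 : C.c z0 = 0
    · have hm : C.can (true, true, fun _ => 0) := by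
        refine ⟨Or.inr (Or.inl ⟨hh, h0, rfl⟩), fun _ => hne, fun i => ?_⟩
        simp
      obtain ⟨E, h1, h2⟩ := MM_bs m (C.next (true, true, fun _ => 0)) (by
        show (if true = true then C.w.tail else C.w) = _
        rw [hw]; rfl) (by rw [MM_r]; simpa using hr) (by
          intro h
          rw [MM_r]
          simpa using hd (by simpa [Cfg.next] using h)) (by
          have := next_c hm z0
          rw [h0] at this
          simp only [SignType.coe_zero] at this
          omega)
      exact ⟨E, ReflTransGen.head ⟨_, hm, rfl⟩ h1, h2⟩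
    · have hm : C.can (true, true, fun _ => -1) := by
        refine ⟨Or.inr (Or.inr ⟨hh, h0, rfl⟩), fun _ => hne, fun i => ?_⟩
        have hi : i = z0 := Subsingleton.elim (α := Fin 1) i z0
        subst hi
        simp only [SignType.coe_neg_one]
        omega
      obtain ⟨E, h1, h2⟩ := MM_bs m (C.next (true, true, fun _ => -1)) (by
        show (if true = true then C.w.tail else C.w) = _
        rw [hw]; rfl) (by
          rw [MM_r]
          by_cases hd1 : C.d z0 = -1
          · rw [hd1]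
            simpa using hr
          · rw [hd hd1]
            split_ifs <;> omega) (by
          intro h
          exfalso
          apply h
          simp [Cfg.next]) (by
          have := next_c hm z0
          simp only [SignType.coe_neg_one] at this
          omega)
      exact ⟨E, ReflTransGen.head ⟨_, hm, rfl⟩ h1, h2⟩

lemma MM_as (m : ℕ) : ∀ (n : ℕ) (C : Cfg MM), C.w = List.replicate n false ++
    List.replicate m true → C.q = false → C.r = 0 → C.d z0 ≠ -1 → C.c z0 + n ≤ m →
    ∃ E : Cfg MM, ReflTransGen Step C E ∧ E.w = [] ∧ E.c z0 = 0 ∧ E.r ≤ 1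
  | 0, C, hw, _, hr, _, hc => MM_bs m C (by simpa using hw) (by omega) (fun _ => hr) hc
  | n + 1, C, hw, hq, hr, hd, hc => by
    have hh : C.w.head? = some false := by rw [hw]; rfl
    have hne : C.w ≠ [] := by rw [hw]; simp [List.replicate_succ]
    have hm : C.can (false, true, fun _ => 1) := by
      refine ⟨Or.inl ⟨hq, hh, rfl⟩, fun _ => hne, fun i => ?_⟩
      simp only [SignType.coe_one]
      omega
    obtain ⟨E, h1, h2⟩ := MM_as m n (C.next (false, true, fun _ => 1)) (by
      show (if true = true then C.w.tail else C.w) = _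
      rw [hw]; rfl) rfl (by
        rw [MM_r, hr]
        simp only [one_mul]
        rw [if_neg hd]) (by simp [Cfg.next]) (by
        have := next_c hm z0
        simp only [SignType.coe_one] at this
        omega)
    exact ⟨E, ReflTransGen.head ⟨_, hm, rfl⟩ h1, h2⟩

theorem MM_lang {c : ℕ} (hc : 1 ≤ c) : MM.lang c = LAB := by
  ext w
  constructor
  · rintro ⟨C, h, hw, -, h0, -⟩
    obtain ⟨i, j, h1, h2, -⟩ := MM_inv h
    rw [h0] at h2
    exact ⟨i, j, by omega, by rw [h1, hw, List.append_nil]⟩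
  · rintro ⟨n, m, hnm, rfl⟩
    obtain ⟨E, h1, h2, h3, h4⟩ := MM_as m n (MM.init (List.replicate n false ++
      List.replicate m true)) rfl rfl rfl (by show (0 : SignType) ≠ -1; decide) (by
        show 0 + n ≤ m; omega)
    refine ⟨E, h1, h2, trivial, fun i => ?_, h4.trans hc⟩
    have hi : i = z0 := Subsingleton.elim (α := Fin 1) i z0
    rw [hi, h3]

/-! ### no reversals -/

variable {S : Type}

/-- the machine without the moves which change counters or require a positive counter -/
def CM.triv (M : CM S) : CM S where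
  Q := M.Q
  finQ := M.finQ
  k := M.k
  start := M.start
  final := M.final
  mv q s _ := {m | m ∈ M.mv q s Set.univ ∧ m.2.2 = fun _ => 0}

lemma triv_blind (M : CM S) : M.triv.Blind := fun _ _ _ _ => rfl

/-- a configuration with zero counters -/
def Cfg.zer {M : CM S} (C : Cfg M) : Prop := (∀ i, C.c i = 0) ∧ (∀ i, C.d i = 0) ∧ C.r = 0

/-- transport -/
def Cfg.tr {M : CM S} (C : Cfg M) : Cfg M.triv := ⟨C.q, C.w, C.c, C.d, C.r⟩

lemma triv_can {M : CM S} {C : Cfg M} (hz : C.zer) {m : M.Q × Bool × (Fin M.k → SignType)} :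
    C.tr.can m ↔ C.can m ∧ m.2.2 = fun _ => 0 := by
  have h1 : {i | C.c i = 0} = Set.univ := Set.eq_univ_of_forall hz.1
  unfold Cfg.can
  rw [h1]
  constructor
  · rintro ⟨⟨a, b⟩, c, d⟩
    exact ⟨⟨a, c, d⟩, b⟩
  · rintro ⟨⟨a, c, d⟩, b⟩
    exact ⟨⟨a, b⟩, c, d⟩

lemma zer_next {M : CM S} {C : Cfg M} (hz : C.zer) {m : M.Q × Bool × (Fin M.k → SignType)}
    (hm : m.2.2 = fun _ => 0) : (C.next m).zer := by
  refine ⟨fun i => ?_, fun i => ?_, ?_⟩
  · show ((C.c i : ℤ) + (m.2.2 i : ℤ)).toNat = 0
    rw [hz.1, hm]; rfl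
  · show (if m.2.2 i = 0 then C.d i else m.2.2 i) = 0
    rw [hm, if_pos rfl, hz.2.1]
  · show C.r + _ = 0
    rw [hz.2.2, hm]
    simp

lemma triv_det {M : CM S} (hd : M.Det) : M.triv.Det := by
  intro C m m' h h'
  have hsign : ∀ s : SignType, (0 : ℤ) ≤ ((0 : ℕ) : ℤ) + (s : ℤ) ↔ s ≠ -1 := by decide
  let K : Cfg M := ⟨C.q, C.w, fun _ => 0, fun _ => 0, 0⟩
  have hK : {i | K.c i = 0} = Set.univ := Set.eq_univ_of_forall fun _ => rfl
  refine hd K m m' ⟨?_, h.2.1, fun i => ?_⟩ ⟨?_, h'.2.1, fun i => ?_⟩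
  · rw [hK]; exact h.1.1
  · rw [hsign, h.1.2]; exact (by decide : (0 : SignType) ≠ -1)
  · rw [hK]; exact h'.1.1
  · rw [hsign, h'.1.2]; exact (by decide : (0 : SignType) ≠ -1)

lemma triv_run {M : CM S} {w : List S} {C : Cfg M.triv}
    (h : ReflTransGen Step (M.triv.init w) C) : ∃ C' : Cfg M, C = C'.tr ∧ C'.zer ∧
      ReflTransGen Step (M.init w) C' := by
  induction h with
  | refl => exact ⟨M.init w, rfl, ⟨fun _ => rfl, fun _ => rfl, rfl⟩, ReflTransGen.refl⟩
  | tail _ hs ih =>
    obtain ⟨C', rfl, hz, h2⟩ := ih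
    obtain ⟨m, hm, rfl⟩ := hs
    have h3 := (triv_can hz).1 hm
    exact ⟨C'.next m, rfl, zer_next hz h3.2, h2.tail ⟨m, h3.1, rfl⟩⟩

lemma triv_qr {M : CM S} (hq : M.QR) : M.triv.QR := by
  obtain ⟨D, hD⟩ := hq
  refine ⟨D, fun w f n h0 hf hw => ?_⟩
  obtain ⟨C₀, h1, h2, h3⟩ := triv_run h0
  have key : ∀ j ≤ n, ∃ C' : Cfg M, f j = C'.tr ∧ C'.zer := by
    intro j
    induction j with
    | zero => intro _; exact ⟨C₀, h1, h2⟩
    | succ j ih =>
      intro hj
      obtain ⟨C', h4, h5⟩ := ih (by omega)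
      obtain ⟨m, hm, h6⟩ := hf j (by omega)
      rw [h4] at hm h6
      exact ⟨C'.next m, h6, zer_next h5 ((triv_can h5).1 hm).2⟩
  refine hD w (fun j => ⟨(f j).q, (f j).w, (f j).c, (f j).d, (f j).r⟩) n ?_ ?_ ?_
  · show ReflTransGen Step (M.init w) ⟨(f 0).q, (f 0).w, (f 0).c, (f 0).d, (f 0).r⟩
    rw [h1]
    exact h3
  · intro j hj
    obtain ⟨C', h4, h5⟩ := key j hj.le
    obtain ⟨m, hm, h6⟩ := hf j hj
    rw [h4] at hm h6
    refine ⟨m, ?_, ?_⟩
    · rw [h4]; exact ((triv_can h5).1 hm).1
    · rw [h4, h6]; rfl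
  · exact hw

/-- a computation without reversals -/
def Inv {M : CM S} (C : Cfg M) : Prop :=
  C.r = 0 → ∀ i, (C.d i = 0 ∧ C.c i = 0) ∨ (C.d i = 1 ∧ 0 < C.c i)

lemma inv_next {M : CM S} {C : Cfg M} (h : Inv C) {m} (hm : C.can m) : Inv (C.next m) := by
  intro hr i
  have h1 : C.r = 0 := by
    have : (C.next m).r = C.r + _ := rfl
    omega
  have h2 : ¬ (m.2.2 i * C.d i = -1) := by
    have h3 : (Finset.univ.filter fun i => m.2.2 i * C.d i = -1).card = 0 := by
      have : (C.next m).r = C.r + (Finset.univ.filter fun i => m.2.2 i * C.d i = -1).card := rfl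
      omega
    intro h4
    have h5 : i ∈ Finset.univ.filter fun i => m.2.2 i * C.d i = -1 := by simp [h4]
    rw [Finset.card_eq_zero.1 h3] at h5
    simp at h5
  have h3 := next_c hm i
  have h4 : (C.next m).d i = if m.2.2 i = 0 then C.d i else m.2.2 i := rfl
  rw [h4]
  have h5 := hm.2.2 i
  rcases h h1 i with ⟨a, b⟩ | ⟨a, b⟩
  · rw [b] at h3 h5
    rw [a] at h2 ⊢
    rcases hs : m.2.2 i with _ | _ | _
    · left
      rw [hs] at h3
      simp at h3
      exact ⟨by simp, by exact_mod_cast h3⟩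
    · rw [hs] at h5
      exact absurd h5 (by simp)
    · right
      rw [hs] at h3
      simp at h3
      refine ⟨by simp, by omega⟩
  · rw [a] at h2 ⊢
    rcases hs : m.2.2 i with _ | _ | _
    · right
      rw [hs] at h3
      simp at h3
      exact ⟨by simp, by omega⟩
    · rw [hs] at h2
      exact absurd rfl h2
    · right
      rw [hs] at h3
      simp at h3
      refine ⟨by simp, by omega⟩

lemma d_mono {M : CM S} {C E : Cfg M} (h : ReflTransGen Step C E) {i : Fin M.k}
    (hi : C.d i ≠ 0) : E.d i ≠ 0 := by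
  induction h with
  | refl => exact hi
  | tail _ hs ih =>
    obtain ⟨m, _, rfl⟩ := hs
    show (if m.2.2 i = 0 then _ else m.2.2 i) ≠ 0
    split_ifs with h
    · exact ih
    · exact h

lemma zer_of_run {M : CM S} {C E : Cfg M} (h : ReflTransGen Step C E) (hr : E.r = 0)
    (hc : ∀ i, E.c i = 0) (hI : Inv C) : C.zer := by
  have hIE : Inv E := by
    clear hr hc
    induction h with
    | refl => exact hI
    | tail _ hs ih =>
      obtain ⟨m, hm, rfl⟩ := hs
      exact inv_next ih hm
  have h1 : C.r = 0 := by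
    have := r_mono h
    omega
  have h2 : ∀ i, C.d i = 0 := by
    intro i
    by_contra h0
    have h3 := d_mono h h0
    rcases hIE hr i with ⟨a, _⟩ | ⟨_, b⟩
    · exact h3 a
    · rw [hc] at b; omega
  refine ⟨fun i => ?_, h2, h1⟩
  rcases hI h1 i with ⟨_, b⟩ | ⟨a, _⟩
  · exact b
  · rw [h2] at a; exact absurd a (by decide)

/-- an accepting computation without reversals does not change the counters -/
lemma no_change {M : CM S} {C E : Cfg M} (h : ReflTransGen Step C E) (hr : E.r = 0)
    (hc : ∀ i, E.c i = 0) : Inv C → ReflTransGen Step C.tr E.tr := by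
  induction h using ReflTransGen.head_induction_on with
  | refl => intro _; exact ReflTransGen.refl
  | head hs h' ih =>
    intro hI
    have h1 := zer_of_run (ReflTransGen.head hs h') hr hc hI
    obtain ⟨m, hm, rfl⟩ := hs
    have hI' := inv_next hI hm
    have h2 := zer_of_run h' hr hc hI'
    refine ReflTransGen.head ⟨m, (triv_can h1).2 ⟨hm, ?_⟩, rfl⟩ (ih hI')
    funext i
    have h3 := h2.2.1 i
    have h4 : (if m.2.2 i = 0 then _ else m.2.2 i) = 0 := h3
    by_contra h5
    rw [if_neg h5] at h4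
    exact h5 h4

theorem triv_lang (M : CM S) : M.triv.lang 0 = M.lang 0 := by
  ext w
  constructor
  · rintro ⟨C, h, hw, hf, hc, hr⟩
    obtain ⟨C', rfl, hz, h2⟩ := triv_run h
    exact ⟨C', h2, hw, hf, hc, hr⟩
  · rintro ⟨C, h, hw, hf, hc, hr⟩
    exact ⟨C.tr, no_change h (Nat.le_zero.1 hr) hc (fun _ _ => Or.inl ⟨rfl, rfl⟩), hw, hf, hc, hr⟩

/-- the two classes agree exactly for `c = 0` -/
theorem main (c : ℕ) : (∀ (S : Type) [Finite S] (L : Set (List S)),
    (∃ B : CM S, B.Blind ∧ B.Det ∧ B.QR ∧ B.lang c = L) ↔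
      ∃ M : CM S, M.Det ∧ M.QR ∧ M.lang c = L) ↔ c = 0 := by
  constructor
  · intro h
    by_contra hc
    obtain ⟨B, h1, h2, h3, h4⟩ := (h Bool LAB).2 ⟨MM, MM_det, MM_qr, MM_lang (by omega)⟩
    exact not_LAB B h2 h1 h3 c h4
  · rintro rfl S _ L
    constructor
    · rintro ⟨B, _, h2, h3, h4⟩
      exact ⟨B, h2, h3, h4⟩
    · rintro ⟨M, h2, h3, h4⟩
      exact ⟨M.triv, triv_blind M, triv_det h2, triv_qr h3, by rw [triv_lang, h4]⟩

end Pool.Agent.W2helper55.PB
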